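import Mathlib

set_option autoImplicit false

namespace Pool.Agent.H.MP_9b3484_nt

noncomputable def th : ℝ := Real.logb 2 3

lemma two_th : (2 : ℝ) ^ th = 3 := Real.rpow_logb (by norm_num) (by norm_num) (by norm_num)

lemma th_pos : 0 < th := Real.logb_pos (by norm_num) (by norm_num)

lemma three_pow (b : ℕ) : (3 : ℝ) ^ b = (2 : ℝ) ^ ((b : ℝ) * th) := by
  rw [mul_comm, Real.rpow_mul (by norm_num), two_th, Real.rpow_natCast]

lemma th_irr : Irrational th := by
  rintro ⟨q, hq⟩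
  have hq0 : 0 < q := by
    have := th_pos; rw [← hq] at this; exact_mod_cast this
  have h1 := three_pow q.den
  have h2 : (q.den : ℝ) * th = (q.num.natAbs : ℕ) := by
    rw [← hq]
    have : (q.den : ℚ) * q = q.num := by rw [mul_comm]; exact Rat.mul_den_eq_num q
    have h3 : ((q.num.natAbs : ℕ) : ℝ) = (q.num : ℝ) := by
      rw [Nat.cast_natAbs, abs_of_pos (Rat.num_pos.2 hq0)]
    rw [h3]; exact_mod_cast this
  rw [h2, Real.rpow_natCast] at h1
  have h4 : 3 ^ q.den = 2 ^ q.num.natAbs := by exact_mod_cast h1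
  have h5 : q.num.natAbs ≠ 0 := Int.natAbs_ne_zero.2 (Rat.num_pos.2 hq0).ne'
  have h6 : 2 ∣ 3 ^ q.den := by rw [h4]; exact dvd_pow_self 2 h5
  have := Nat.Prime.dvd_of_dvd_pow Nat.prime_two h6
  omega

noncomputable def AA (b : ℕ) : ℕ := ⌊(b : ℝ) * th⌋₊ + 1

noncomputable def xx (b : ℕ) : ℝ := 2 ^ AA b / 3 ^ b

lemma xx_eq (b : ℕ) : xx b = (2 : ℝ) ^ ((AA b : ℝ) - b * th) := by
  unfold xx
  rw [Real.rpow_sub (by norm_num), three_pow, Real.rpow_natCast]

lemma phi_bd (b : ℕ) : 0 < (AA b : ℝ) - b * th ∧ (AA b : ℝ) - b * th ≤ 1 := by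
  unfold AA
  push_cast
  have h0 : 0 ≤ (b : ℝ) * th := mul_nonneg (Nat.cast_nonneg b) th_pos.le
  constructor
  · linarith [Nat.lt_floor_add_one ((b : ℝ) * th)]
  · linarith [Nat.floor_le h0]

lemma xx_bd (b : ℕ) : 1 < xx b ∧ xx b ≤ 2 := by
  rw [xx_eq]
  refine ⟨Real.one_lt_rpow (by norm_num) (phi_bd b).1, ?_⟩
  calc (2 : ℝ) ^ ((AA b : ℝ) - b * th) ≤ 2 ^ (1 : ℝ) :=
        Real.rpow_le_rpow_of_exponent_le (by norm_num) (phi_bd b).2
    _ = 2 := by norm_num

lemma AA_mono {b b' : ℕ} (h : b ≤ b') : AA b ≤ AA b' := by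
  unfold AA
  have : (b : ℝ) * th ≤ b' * th := mul_le_mul_of_nonneg_right (by exact_mod_cast h) th_pos.le
  exact Nat.add_le_add_right (Nat.floor_mono this) 1

lemma lip_aux (s t : ℝ) (hs : 0 ≤ s) (hst : s ≤ t) : t - s ≤ 2 * ((2 : ℝ) ^ t - 2 ^ s) := by
  have h1 : (2 : ℝ) ^ t = 2 ^ s * 2 ^ (t - s) := by
    rw [← Real.rpow_add (by norm_num)]; congr 1; ring
  have h2 : (1 : ℝ) ≤ 2 ^ s := Real.one_le_rpow (by norm_num) hs
  have h3 : (t - s) * Real.log 2 + 1 ≤ (2 : ℝ) ^ (t - s) := by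
    rw [Real.rpow_def_of_pos (by norm_num), mul_comm (Real.log 2)]
    exact Real.add_one_le_exp _
  have h4 := Real.log_two_gt_d9
  have h5 : 0 ≤ t - s := by linarith
  have h6 : (t - s) / 2 ≤ (2 : ℝ) ^ (t - s) - 1 := by nlinarith
  rw [h1]
  nlinarith

lemma lip (b b' : ℕ) : |((AA b : ℝ) - b * th) - ((AA b' : ℝ) - b' * th)| ≤ 2 * |xx b - xx b'| := by
  rw [xx_eq, xx_eq]
  rcases le_total ((AA b : ℝ) - b * th) ((AA b' : ℝ) - b' * th) with h | h
  · have := lip_aux _ _ (phi_bd b).1.le h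
    rw [abs_sub_comm, abs_of_nonneg (by linarith), abs_sub_comm, abs_of_nonneg (by linarith)]
    exact this
  · have := lip_aux _ _ (phi_bd b').1.le h
    rw [abs_of_nonneg (by linarith), abs_of_nonneg (by linarith)]
    exact this

/-- structure of near returns -/
lemma returns (lam : ℝ) (k : ℕ) (hl : 8 * lam * (4 ^ k) ^ 2 ≤ 1) :
    ∃ j' : ℕ, ∀ d : ℕ, 1 ≤ d → ∀ α : ℤ, |(α : ℝ) - d * th| ≤ lam → d < 4 ^ j' ∨ 4 ^ (j' + k) ≤ d := by
  by_cases hD : ∃ D : ℕ, 1 ≤ D ∧ D < 4 ^ k ∧ ∃ A : ℤ, |(A : ℝ) - D * th| ≤ lam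
  · obtain ⟨D, D1, D2, A, hA⟩ := hD
    have hη : 0 < |(A : ℝ) - D * th| := by
      rw [abs_pos, sub_ne_zero]
      intro h
      have := (th_irr.natCast_mul (m := D) (by omega))
      exact this ⟨A, by push_cast; exact h⟩
    set η := |(A : ℝ) - D * th| with hηdef
    have hl0 : 0 < lam := hη.trans_le hA
    have hR : (1 : ℝ) ≤ 4 ^ k := one_le_pow₀ (by norm_num)
    have hex : ∃ j : ℕ, 4 ^ k * lam / η < 4 ^ j := pow_unbounded_of_one_lt _ (by norm_num)
    classical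
    have hj := Nat.find_spec hex
    have hge : (1 : ℝ) ≤ 4 ^ k * lam / η := by
      rw [le_div_iff₀ hη]; nlinarith
    have hj0 : Nat.find hex ≠ 0 := by
      intro h; rw [h] at hj; simp at hj; linarith
    obtain ⟨i, hi⟩ := Nat.exists_eq_succ_of_ne_zero hj0
    have hmin := Nat.find_min hex (show i < Nat.find hex by omega)
    rw [hi] at hj
    refine ⟨i + 1, fun d d1 α hα => ?_⟩
    have hD2 : (D : ℝ) < 4 ^ k := by exact_mod_cast D2
    have hD1 : (1 : ℝ) ≤ D := by exact_mod_cast D1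
    have hd1 : (1 : ℝ) ≤ d := by exact_mod_cast d1
    have id1 : ((α * D - A * d : ℤ) : ℝ) = D * ((α : ℝ) - d * th) - d * ((A : ℝ) - D * th) := by
      push_cast; ring
    by_cases hN : α * D - A * d = 0
    · left
      rw [hN] at id1
      have e : (d : ℝ) * η = D * |(α : ℝ) - d * th| := by
        have : (d : ℝ) * ((A : ℝ) - D * th) = D * ((α : ℝ) - d * th) := by
          push_cast at id1; linarith
        have h2 := congrArg abs this
        rwa [abs_mul, abs_mul, abs_of_pos (by linarith : (0 : ℝ) < d),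
          abs_of_pos (by linarith : (0 : ℝ) < D)] at h2
      have h3 : (d : ℝ) ≤ 4 ^ k * lam / η := by
        rw [le_div_iff₀ hη, e]
        exact mul_le_mul hD2.le hα (abs_nonneg _) (by positivity)
      have h4 : (d : ℝ) < 4 ^ (i + 1) := h3.trans_lt hj
      exact_mod_cast h4
    · right
      have h1 : (1 : ℝ) ≤ |((α * D - A * d : ℤ) : ℝ)| := by
        rw [← Int.cast_abs]; exact_mod_cast Int.one_le_abs hN
      rw [id1] at h1
      have h2 : |D * ((α : ℝ) - d * th) - d * ((A : ℝ) - D * th)| ≤ D * lam + d * η := by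
        refine (abs_sub _ _).trans ?_
        rw [abs_mul, abs_mul, abs_of_pos (by linarith : (0 : ℝ) < d),
          abs_of_pos (by linarith : (0 : ℝ) < D)]
        exact add_le_add (mul_le_mul_of_nonneg_left hα (by linarith)) le_rfl
      have h3 : (D : ℝ) * lam ≤ 1 / 2 := by nlinarith
      have h4 : 1 / 2 ≤ d * η := by linarith
      push Not at hmin
      rw [le_div_iff₀ hη] at hmin
      have h5 : (4 : ℝ) ^ (i + 1 + k) * η ≤ d * η := by
        rw [pow_add, pow_succ]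
        nlinarith
      have h6 := le_of_mul_le_mul_right h5 hη
      exact_mod_cast h6
  · refine ⟨0, fun d d1 α hα => Or.inr ?_⟩
    rw [zero_add]
    by_contra h
    exact hD ⟨d, d1, by omega, α, hα⟩

open Classical in
lemma cand_count (α L : ℝ) (hL : 0 < L) (hL1 : L ≤ 1) : ∃ j0 : ℕ, 2 ≤ j0 ∧ ∀ u : ℕ,
    L / 8 * 4 ^ j0 ≤ (((Finset.Ico u (u + 4 ^ j0)).filter
      (fun b : ℕ => ∃ k : ℤ, α ≤ (k : ℝ) - b * th ∧ (k : ℝ) - b * th ≤ α + L)).card : ℝ) := by
  obtain ⟨T, hT⟩ := exists_nat_ge (8 / L)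
  obtain ⟨q, hq, hQ⟩ : ∃ q : ℚ, |th - q| < 1 / (q.den : ℝ) ^ 2 ∧ T < q.den := by
    have hev := th_irr.eventually_forall_le_dist_cast_rat_of_den_le T
    obtain ⟨ε, hε, hε0⟩ := (hev.filter_mono (nhdsWithin_le_nhds (s := Set.Ioi (0 : ℝ)))).and
      self_mem_nhdsWithin |>.exists
    have hε1 : 0 < ε := hε0
    obtain ⟨n, hn⟩ := exists_nat_gt (1 / ε)
    have hn0 : 0 < n := by
      have : (0 : ℝ) < n := lt_trans (by positivity) hn
      exact_mod_cast this
    obtain ⟨q, h1, h2⟩ := Real.exists_rat_abs_sub_le_and_den_le th hn0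
    have hd : (1 : ℝ) ≤ q.den := by exact_mod_cast q.pos
    have hd2 : (q.den : ℝ) ≤ n := by exact_mod_cast h2
    refine ⟨q, h1.trans_lt ?_, ?_⟩
    · apply one_div_lt_one_div_of_lt (by positivity)
      nlinarith
    · by_contra hc
      have := hε q (by omega)
      rw [Real.dist_eq] at this
      have h3 : 1 / (((n : ℝ) + 1) * q.den) < ε := by
        rw [div_lt_iff₀ (by positivity)]
        rw [div_lt_iff₀ hε1] at hn
        nlinarith
      linarith
  set Q := q.den with hQdef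
  have hQr : 8 ≤ L * Q := by
    rw [div_le_iff₀ hL] at hT
    have : (T : ℝ) ≤ Q := by exact_mod_cast hQ.le
    nlinarith
  have hQ8 : (8 : ℝ) ≤ Q := by nlinarith
  have hQ8' : 8 ≤ Q := by exact_mod_cast hQ8
  have hQ0 : (0 : ℝ) < Q := by linarith
  have c1 : Q ≤ 4 ^ Nat.clog 4 Q := Nat.le_pow_clog (by norm_num) Q
  have c2 : 4 ^ (Nat.clog 4 Q).pred < Q := Nat.pow_pred_clog_lt_self (by norm_num) (by omega)
  have c3 : 2 ≤ Nat.clog 4 Q := by
    by_contra h
    have : 4 ^ Nat.clog 4 Q ≤ 4 ^ 1 := Nat.pow_le_pow_right (by norm_num) (by omega)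
    omega
  refine ⟨Nat.clog 4 Q, c3, fun u => ?_⟩
  generalize Nat.clog 4 Q = j0 at *
  have c4 : 4 ^ j0 < 4 * Q := by
    obtain ⟨i, rfl⟩ := Nat.exists_eq_succ_of_ne_zero (show j0 ≠ 0 by omega)
    simp only [Nat.pred_succ] at c2
    rw [pow_succ]; omega
  have hcop : IsCoprime q.num (Q : ℤ) := by
    rw [Int.isCoprime_iff_gcd_eq_one]; exact q.reduced
  obtain ⟨a, v, hav⟩ := hcop
  set K := ⌈L * Q / 2⌉₊ with hK
  have hK1 : L * Q / 2 ≤ K := Nat.le_ceil _
  have hK2 : (K : ℝ) < L * Q / 2 + 1 := Nat.ceil_lt_add_one (by positivity)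
  set k0 := ⌈Q * (α + u * th) + 1⌉ with hk0
  have hk1 : Q * (α + u * th) + 1 ≤ k0 := Int.le_ceil _
  have hk2 : (k0 : ℝ) < Q * (α + u * th) + 1 + 1 := Int.ceil_lt_add_one _
  have hQz : (0 : ℤ) < Q := by exact_mod_cast (show 0 < Q by omega)
  let f : ℕ → ℕ := fun t => u + ((-(k0 + t) * a) % Q).toNat
  have hf : ∀ t : ℕ, ∃ i : ℕ, f t = u + i ∧ i < Q ∧ (Q : ℤ) ∣ (k0 + t) + i * q.num := by
    intro t
    have e1 := Int.emod_nonneg (-(k0 + t) * a) hQz.ne'
    have e2 := Int.emod_lt_of_pos (-(k0 + t) * a) hQz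
    refine ⟨_, rfl, by omega, ?_⟩
    rw [Int.toNat_of_nonneg e1, Int.emod_def]
    refine ⟨(k0 + t) * v - (-(k0 + t) * a) / Q * q.num, ?_⟩
    linear_combination (-(k0 + (t : ℤ))) * hav
  have hcard : K ≤ ((Finset.Ico u (u + 4 ^ j0)).filter
      (fun b : ℕ => ∃ k : ℤ, α ≤ (k : ℝ) - b * th ∧ (k : ℝ) - b * th ≤ α + L)).card := by
    rw [← Finset.card_range K]
    apply Finset.card_le_card_of_injOn f
    · intro t ht
      simp only [Finset.coe_range, Set.mem_Iio] at ht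
      obtain ⟨i, e1, e2, k, e3⟩ := hf t
      simp only [Finset.coe_filter, Finset.mem_Ico, Set.mem_ofPred_eq]
      refine ⟨by omega, k, ?_⟩
      rw [e1]
      have e4 : ((k0 : ℝ) + t) + i * q.num = Q * k := by exact_mod_cast e3
      have e5 : (q : ℝ) * Q = q.num := by
        rw [hQdef]; exact_mod_cast Rat.mul_den_eq_num q
      have e6 : (i : ℝ) ≤ Q := by exact_mod_cast e2.le
      have e7 : (t : ℝ) + 1 ≤ K := by exact_mod_cast ht
      have e8 : |(i : ℝ) * Q * (th - q)| ≤ 1 := by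
        rw [abs_mul, abs_of_nonneg (by positivity)]
        rw [lt_div_iff₀ (by positivity)] at hq
        have : (i : ℝ) * Q ≤ Q ^ 2 := by nlinarith
        nlinarith [abs_nonneg (th - q)]
      have e9 : Q * ((k : ℝ) - ((u + i : ℕ) : ℝ) * th) =
          k0 + t - Q * (u * th) - i * Q * (th - q) := by
        push_cast
        linear_combination (-1 : ℝ) * e4 - (i : ℝ) * e5
      rw [abs_le] at e8
      have ht0 : (0 : ℝ) ≤ t := Nat.cast_nonneg t
      constructor
      · apply le_of_mul_le_mul_left _ hQ0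
        rw [e9]; linarith [e8.2]
      · apply le_of_mul_le_mul_left _ hQ0
        rw [e9]; linarith [e8.1]
    · intro t ht t' ht' h
      simp only [Finset.coe_range, Set.mem_Iio] at ht ht'
      obtain ⟨i, e1, e2, e3⟩ := hf t
      obtain ⟨i', e1', e2', e3'⟩ := hf t'
      have : i = i' := by omega
      subst this
      have hd : (Q : ℤ) ∣ (t : ℤ) - t' := by
        have := dvd_sub e3 e3'
        rwa [show k0 + (t : ℤ) + i * q.num - (k0 + t' + i * q.num) = t - t' by ring] at this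
      have hKQ : K ≤ Q := by
        have : (K : ℝ) ≤ Q := by nlinarith
        exact_mod_cast this
      have := Int.eq_zero_of_abs_lt_dvd hd (by rw [abs_lt]; constructor <;> omega)
      omega
  have h1 : (K : ℝ) ≤ _ := (Nat.cast_le (α := ℝ)).2 hcard
  refine le_trans ?_ h1
  have h2 : (4 : ℝ) ^ j0 ≤ 4 * Q := by exact_mod_cast c4.le
  nlinarith

end Pool.Agent.H.MP_9b3484_nt
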