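import Pool.Agent.H.MP_9b3484_nt.Pot
import Pool.Agent.H.MP_9b3484_nt.Theta

set_option autoImplicit false

namespace Pool.Agent.H.MP_9b3484_nt

def Ev (r s b : ℕ) : Prop := |xx b - (r : ℝ) / s| < 2 / (s : ℝ) ^ 100

def Bad (j b : ℕ) : Prop := ∃ s r : ℕ, 3 ^ (4 ^ (j - 2)) ≤ s ∧ s < 3 ^ (4 ^ (j - 1)) ∧
  r * 3 ^ b ≠ 2 ^ AA b * s ∧ Ev r s b

lemma small_one {s : ℕ} (hs : 2 ≤ s) : 2 / (s : ℝ) ^ 100 ≤ 1 := by
  have h : (2 : ℝ) ≤ s := by exact_mod_cast hs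
  rw [div_le_one (by positivity)]
  calc (2 : ℝ) ≤ s := h
    _ = (s : ℝ) ^ 1 := (pow_one _).symm
    _ ≤ (s : ℝ) ^ 100 := pow_le_pow_right₀ (by linarith) (by norm_num)

lemma ev_r {r s b : ℕ} (hs : 2 ≤ s) (h : Ev r s b) : 0 < r ∧ r ≤ 3 * s := by
  unfold Ev at h
  have h1 := h.trans_le (small_one hs)
  rw [abs_lt] at h1
  have hs0 : (0 : ℝ) < s := by positivity
  obtain ⟨x1, x2⟩ := xx_bd b
  constructor
  · rcases Nat.eq_zero_or_pos r with h0 | h0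
    · subst h0; simp at h1; linarith [h1.2]
    · exact h0
  · have : (r : ℝ) / s < 3 := by linarith [h1.1]
    rw [div_lt_iff₀ hs0] at this
    exact_mod_cast this.le

lemma sep_low (r s b : ℕ) (hs : 0 < s) (h : r * 3 ^ b ≠ 2 ^ AA b * s) :
    1 / ((3 : ℝ) ^ b * s) ≤ |xx b - (r : ℝ) / s| := by
  have hs0 : (0 : ℝ) < s := by positivity
  have e : xx b - (r : ℝ) / s = (((2 ^ AA b * s - r * 3 ^ b : ℤ) : ℤ) : ℝ) / (3 ^ b * s) := by
    unfold xx; push_cast; field_simp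
  rw [e, abs_div, abs_of_pos (show (0 : ℝ) < 3 ^ b * s by positivity)]
  apply div_le_div_of_nonneg_right _ (by positivity)
  rw [← Int.cast_abs]
  have : (2 ^ AA b * s - r * 3 ^ b : ℤ) ≠ 0 := by
    intro h0; apply h
    have : (r * 3 ^ b : ℤ) = 2 ^ AA b * s := by linarith
    exact_mod_cast this
  exact_mod_cast Int.one_le_abs this

lemma gap (j : ℕ) (hj : 2 ≤ j) (b b' : ℕ) (hb : b < b') (h : Bad j b) (h' : Bad j b') :
    b' ≤ b + 4 ^ j ∨ b + 4 ^ (j + 1) ≤ b' := by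
  obtain ⟨i, rfl⟩ := Nat.exists_eq_add_of_le' hj
  obtain ⟨s, r, s1, s2, -, e⟩ := h
  obtain ⟨s', r', s1', s2', -, e'⟩ := h'
  simp only [Nat.add_sub_cancel, show i + 2 - 1 = i + 1 from rfl] at s1 s2 s1' s2'
  have ht : 1 ≤ 4 ^ i := Nat.one_le_pow _ _ (by norm_num)
  rw [pow_succ 4 i] at s2 s2'
  rw [show 4 ^ (i + 2) = 16 * 4 ^ i by ring, show 4 ^ (i + 2 + 1) = 64 * 4 ^ i by ring]
  generalize 4 ^ i = t at *
  have h3 : 3 ≤ 3 ^ t := by
    calc 3 = 3 ^ 1 := rfl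
      _ ≤ 3 ^ t := Nat.pow_le_pow_right (by norm_num) ht
  obtain ⟨r0, r1⟩ := ev_r (by omega) e
  obtain ⟨D, rfl⟩ := Nat.exists_eq_add_of_le hb.le
  obtain ⟨a, ha⟩ := Nat.exists_eq_add_of_le (AA_mono hb.le)
  by_cases hN : r' * s * 3 ^ D = r * s' * 2 ^ a
  · left
    have hd : 3 ^ D ∣ r * s' * 2 ^ a := ⟨r' * s, by rw [← hN]; ring⟩
    have hd2 : 3 ^ D ∣ r * s' :=
      (Nat.Coprime.pow D a (by norm_num)).dvd_of_dvd_mul_right hd
    have hle := Nat.le_of_dvd (Nat.mul_pos r0 (by omega)) hd2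
    have : 3 ^ D < 3 ^ (1 + t * 4 + t * 4) := by
      rw [pow_add, pow_add, pow_one]
      calc 3 ^ D ≤ r * s' := hle
        _ ≤ 3 * s * s' := Nat.mul_le_mul_right _ r1
        _ < 3 * 3 ^ (t * 4) * 3 ^ (t * 4) := by
          apply Nat.mul_lt_mul'' _ s2'; omega
    have := (Nat.pow_lt_pow_iff_right (by norm_num)).1 this
    omega
  · right
    have hs0 : (0 : ℝ) < s := by have : 0 < s := by omega
                                 positivity
    have hs0' : (0 : ℝ) < s' := by have : 0 < s' := by omega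
                                   positivity
    have hx : xx (b + D) = xx b * ((2 : ℝ) ^ a / 3 ^ D) := by
      unfold xx; rw [ha, pow_add, pow_add]; field_simp
    obtain ⟨x1, x2⟩ := xx_bd b
    obtain ⟨y1, y2⟩ := xx_bd (b + D)
    have hρ0 : (0 : ℝ) < (2 : ℝ) ^ a / 3 ^ D := by positivity
    have hρ : (2 : ℝ) ^ a / 3 ^ D ≤ 2 := by nlinarith
    have id1 : (((r' * s * 3 ^ D - r * s' * 2 ^ a : ℤ) : ℤ) : ℝ) =
        (s * s' * 3 ^ D) * (-(xx (b + D) - (r' : ℝ) / s') +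
          ((2 : ℝ) ^ a / 3 ^ D) * (xx b - (r : ℝ) / s)) := by
      rw [hx]; push_cast; field_simp; ring
    have h1 : (1 : ℝ) ≤ |(((r' * s * 3 ^ D - r * s' * 2 ^ a : ℤ) : ℤ) : ℝ)| := by
      rw [← Int.cast_abs]
      have : (r' * s * 3 ^ D - r * s' * 2 ^ a : ℤ) ≠ 0 := by
        intro h0; apply hN
        have : (r' * s * 3 ^ D : ℤ) = r * s' * 2 ^ a := by linarith
        exact_mod_cast this
      exact_mod_cast Int.one_le_abs this
    rw [id1, abs_mul, abs_of_pos (by positivity)] at h1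
    unfold Ev at e e'
    have hS : (0 : ℝ) < ((3 : ℝ) ^ t) ^ 100 := by positivity
    have f1 : 2 / (s : ℝ) ^ 100 ≤ 2 / ((3 : ℝ) ^ t) ^ 100 := by
      apply div_le_div_of_nonneg_left (by norm_num) hS
      apply pow_le_pow_left₀ (by positivity); exact_mod_cast s1
    have f2 : 2 / (s' : ℝ) ^ 100 ≤ 2 / ((3 : ℝ) ^ t) ^ 100 := by
      apply div_le_div_of_nonneg_left (by norm_num) hS
      apply pow_le_pow_left₀ (by positivity); exact_mod_cast s1'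
    have h2 : |-(xx (b + D) - (r' : ℝ) / s') + ((2 : ℝ) ^ a / 3 ^ D) * (xx b - (r : ℝ) / s)| ≤
        9 / ((3 : ℝ) ^ t) ^ 100 := by
      refine (abs_add_le _ _).trans ?_
      rw [abs_neg, abs_mul, abs_of_pos hρ0]
      have : (9 : ℝ) / ((3 : ℝ) ^ t) ^ 100 = 9 / 2 * (2 / ((3 : ℝ) ^ t) ^ 100) := by ring
      rw [this]
      have p : (0 : ℝ) < 2 / ((3 : ℝ) ^ t) ^ 100 := by positivity
      nlinarith [abs_nonneg (xx b - (r : ℝ) / s)]
    have h4 : (1 : ℝ) ≤ (s * s' * 3 ^ D) * (9 / ((3 : ℝ) ^ t) ^ 100) :=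
      h1.trans (mul_le_mul_of_nonneg_left h2 (by positivity))
    rw [← mul_div_assoc, le_div_iff₀ hS, one_mul] at h4
    have h5 : (3 ^ t) ^ 100 ≤ s * s' * 3 ^ D * 9 := by exact_mod_cast h4
    have h6 : 3 ^ (t * 100) ≤ 3 ^ (t * 4 + t * 4 + D + 2) := by
      rw [pow_mul, pow_add, pow_add, pow_add]
      refine h5.trans ?_
      apply Nat.mul_le_mul _ (by norm_num)
      exact Nat.mul_le_mul_right _ (Nat.mul_le_mul s2.le s2'.le)
    have := (Nat.pow_le_pow_iff_right (by norm_num)).1 h6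
    omega

lemma top (t b r s : ℕ) (hb : b < 32 * t) (hs : 3 ^ t ≤ s)
    (h : r * 3 ^ b ≠ 2 ^ AA b * s) : ¬ Ev r s b := by
  unfold Ev
  have hs0 : 0 < s := lt_of_lt_of_le (by positivity) hs
  have h1 := sep_low r s b hs0 h
  have h2 : 2 / (s : ℝ) ^ 100 ≤ 1 / ((3 : ℝ) ^ b * s) := by
    rw [div_le_div_iff₀ (by positivity) (by positivity), one_mul, pow_succ (s : ℝ) 99, ← mul_assoc]
    apply mul_le_mul_of_nonneg_right _ (by positivity)
    have : 2 * 3 ^ b ≤ s ^ 99 := by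
      calc 2 * 3 ^ b ≤ 3 ^ (b + 1) := by rw [pow_succ]; omega
        _ ≤ 3 ^ (t * 99) := Nat.pow_le_pow_right (by norm_num) (by omega)
        _ = (3 ^ t) ^ 99 := pow_mul _ _ _
        _ ≤ s ^ 99 := Nat.pow_le_pow_left hs 99
    exact_mod_cast this
  linarith

lemma pot_bd (s : ℕ) (hs : 2 ≤ s) : ∃ n : ℕ, ∀ r i u, g (Ev r s) (n + i) u ≤ 1 / (4096 * (s : ℝ) ^ 5) := by
  obtain ⟨e, he1, he2⟩ : ∃ e : ℕ, s < 2 ^ e ∧ 2 ^ e ≤ 2 * s := by
    refine ⟨Nat.log 2 s + 1, Nat.lt_pow_succ_log_self (by norm_num) s, ?_⟩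
    rw [pow_succ]
    have := Nat.pow_log_le_self 2 (show s ≠ 0 by omega)
    omega
  have hs2 : (2 : ℝ) ≤ s := by exact_mod_cast hs
  have hl : 8 * (8 / (s : ℝ) ^ 100) * ((4 : ℝ) ^ (13 + 5 * e)) ^ 2 ≤ 1 := by
    have h1 : 64 * (4 ^ (13 + 5 * e)) ^ 2 ≤ s ^ 100 := by
      calc 64 * (4 ^ (13 + 5 * e)) ^ 2 = 2 ^ 58 * (2 ^ e) ^ 20 := by
            rw [show (4 : ℕ) = 2 ^ 2 from rfl, ← pow_mul, ← pow_mul, ← pow_mul,
              show (64 : ℕ) = 2 ^ 6 from rfl, ← pow_add, ← pow_add]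
            congr 1; ring
        _ ≤ 2 ^ 58 * (2 * s) ^ 20 := Nat.mul_le_mul_left _ (Nat.pow_le_pow_left he2 20)
        _ = 2 ^ 78 * s ^ 20 := by ring
        _ ≤ s ^ 78 * s ^ 20 := Nat.mul_le_mul_right _ (Nat.pow_le_pow_left hs 78)
        _ = s ^ 98 := by ring
        _ ≤ s ^ 100 := Nat.pow_le_pow_right (by omega) (by norm_num)
    have h2 : (64 : ℝ) * (4 ^ (13 + 5 * e)) ^ 2 ≤ (s : ℝ) ^ 100 := by exact_mod_cast h1
    rw [show 8 * (8 / (s : ℝ) ^ 100) * ((4 : ℝ) ^ (13 + 5 * e)) ^ 2 =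
      (64 * (4 ^ (13 + 5 * e)) ^ 2) / (s : ℝ) ^ 100 by ring, div_le_one (by positivity)]
    exact h2
  obtain ⟨j', hj'⟩ := returns _ _ hl
  refine ⟨j' + (13 + 5 * e), fun r i u => ?_⟩
  refine (g_sep (Ev r s) j' (13 + 5 * e) ?_ i u).trans ?_
  · intro b b' hb h h'
    obtain ⟨D, rfl⟩ := Nat.exists_eq_add_of_le hb.le
    have := hj' D (by omega) ((AA (b + D) : ℤ) - AA b) (by
      have l := lip (b + D) b
      unfold Ev at h h'
      have t : |xx (b + D) - xx b| ≤ |xx (b + D) - (r : ℝ) / s| + |xx b - (r : ℝ) / s| := by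
        have := abs_sub (xx (b + D) - (r : ℝ) / s) (xx b - (r : ℝ) / s)
        rwa [sub_sub_sub_cancel_right] at this
      have e8 : 8 / (s : ℝ) ^ 100 = 4 * (2 / (s : ℝ) ^ 100) := by ring
      rw [e8]
      refine le_of_eq_of_le ?_ (l.trans (by linarith))
      congr 1; push_cast; ring)
    omega
  · rw [div_le_div_iff₀ (by positivity) (by positivity), one_mul, pow_add, mul_comm 5 e, pow_mul]
    have : (s : ℝ) ^ 5 ≤ ((2 : ℝ) ^ e) ^ 5 := by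
      apply pow_le_pow_left₀ (by positivity); exact_mod_cast he1.le
    linarith

lemma sum_inv_sq (X Y : ℕ) (hX : 1 ≤ X) : ∑ s ∈ Finset.Ioc X Y, 1 / (s : ℝ) ^ 2 ≤ 1 := by
  have : ∀ Y : ℕ, ∑ s ∈ Finset.Ioc 1 (Y + 1), 1 / (s : ℝ) ^ 2 ≤ 1 - 1 / ((Y : ℝ) + 1) := by
    intro Y
    induction Y with
    | zero => simp
    | succ Y ih =>
      rw [Finset.sum_Ioc_succ_top (by omega)]
      push_cast
      have hY : (0 : ℝ) ≤ Y := Nat.cast_nonneg Y
      have : 1 / ((Y : ℝ) + 1 + 1) ^ 2 ≤ 1 / ((Y : ℝ) + 1) - 1 / ((Y : ℝ) + 1 + 1) := by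
        rw [div_sub_div _ _ (by positivity) (by positivity), div_le_div_iff₀ (by positivity) (by positivity)]
        nlinarith
      linarith
  have h1 : ∑ s ∈ Finset.Ioc X Y, 1 / (s : ℝ) ^ 2 ≤ ∑ s ∈ Finset.Ioc 1 (Y + 1), 1 / (s : ℝ) ^ 2 := by
    apply Finset.sum_le_sum_of_subset_of_nonneg
    · exact Finset.Ioc_subset_Ioc hX (by omega)
    · intro i _ _; positivity
  have h2 := this Y
  have : 0 ≤ 1 / ((Y : ℝ) + 1) := by positivity
  linarith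

lemma level (j0 i s : ℕ) (hj : 2 ≤ j0) (h1 : 3 ^ (4 ^ (j0 - 2)) ≤ s) (h2 : s < 3 ^ (4 ^ (j0 + i - 2))) :
    ∃ j, j0 ≤ j ∧ j < j0 + i ∧ 3 ^ (4 ^ (j - 2)) ≤ s ∧ s < 3 ^ (4 ^ (j - 1)) := by
  induction i with
  | zero => simp at h2; omega
  | succ i ih =>
    by_cases h : s < 3 ^ (4 ^ (j0 + i - 2))
    · obtain ⟨j, a1, a2, a3⟩ := ih h
      exact ⟨j, a1, by omega, a3⟩
    · refine ⟨j0 + i, by omega, by omega, by omega, ?_⟩
      rwa [show j0 + (i + 1) - 2 = j0 + i - 1 by omega] at h2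

lemma key (X : ℕ) (hX : 1 ≤ X) (y : ℝ) (hy1 : 1 < y) (hy2 : y + 1 / (12 * (X : ℝ) ^ 2) ≤ 2) :
    ∃ b : ℕ, 3 * X ≤ 3 ^ b ∧ y ≤ xx b ∧ xx b ≤ y + 1 / (24 * (X : ℝ) ^ 2) ∧
      ∀ s : ℕ, X < s → ∀ r : ℕ, r * 3 ^ b ≠ 2 ^ AA b * s → ¬ Ev r s b := by
  have hX1 : (1 : ℝ) ≤ X := by exact_mod_cast hX
  set L : ℝ := 1 / (48 * (X : ℝ) ^ 2) with hL
  have hL0 : 0 < L := by positivity
  have hL1 : L ≤ 1 := by
    rw [hL, div_le_one (by positivity)]; nlinarith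
  obtain ⟨j0, hj0, hC⟩ := cand_count (Real.logb 2 y) L hL0 hL1
  set Y := 3 ^ (4 ^ (j0 - 2)) with hY
  have hn : ∃ n : ℕ, ∀ s ∈ Finset.Ioc X Y, ∀ r i u, g (Ev r s) (n + i) u ≤ 1 / (4096 * (s : ℝ) ^ 5) := by
    generalize Y = Z
    induction Z with
    | zero => exact ⟨0, by simp⟩
    | succ Z ih =>
      obtain ⟨n, hn⟩ := ih
      by_cases hZ : X < Z + 1
      · obtain ⟨m, hm⟩ := pot_bd (Z + 1) (by omega)
        refine ⟨n + m, fun s hs r i u => ?_⟩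
        rw [Finset.mem_Ioc] at hs
        rcases hs.2.lt_or_eq with t | t
        · rw [add_assoc]; exact hn s (Finset.mem_Ioc.2 ⟨hs.1, by omega⟩) r _ u
        · rw [t, show n + m + i = m + (n + i) by ring]; exact hm r _ u
      · exact ⟨0, fun s hs => by rw [Finset.mem_Ioc] at hs; omega⟩
  obtain ⟨n, hn⟩ := hn
  have hsum : ∑ e ∈ (Finset.Ioc X Y).sigma (fun s => Finset.range (3 * s + 1)),
      g (Ev e.2 e.1) (j0 + (n + X)) (4 ^ (j0 + (n + X))) < L / 8 := by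
    rw [Finset.sum_sigma]
    have h1 : ∀ s ∈ Finset.Ioc X Y, ∑ r ∈ Finset.range (3 * s + 1),
        g (Ev r s) (j0 + (n + X)) (4 ^ (j0 + (n + X))) ≤ 1 / (1024 * (X : ℝ) ^ 2) * (1 / (s : ℝ) ^ 2) := by
      intro s hs
      have h2 := Finset.sum_le_card_nsmul (Finset.range (3 * s + 1))
        (fun r => g (Ev r s) (j0 + (n + X)) (4 ^ (j0 + (n + X)))) (1 / (4096 * (s : ℝ) ^ 5))
        (fun r _ => by rw [show j0 + (n + X) = n + (j0 + X) by ring]; exact hn s hs r _ _)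
      refine h2.trans ?_
      rw [Finset.card_range, nsmul_eq_mul]
      rw [Finset.mem_Ioc] at hs
      have hs1 : (X : ℝ) ≤ s := by exact_mod_cast hs.1.le
      have hs0 : (0 : ℝ) < s := by linarith
      push_cast
      rw [mul_one_div, div_mul_div_comm, one_mul, div_le_div_iff₀ (by positivity) (by positivity)]
      have h3 : (X : ℝ) ^ 2 ≤ (s : ℝ) ^ 2 := pow_le_pow_left₀ (by positivity) hs1 2
      have h4 : (3 * (s : ℝ) + 1) ≤ 4 * s := by linarith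
      calc (3 * (s : ℝ) + 1) * (1024 * (X : ℝ) ^ 2 * (s : ℝ) ^ 2)
          ≤ (4 * s) * (1024 * (s : ℝ) ^ 2 * (s : ℝ) ^ 2) := by gcongr
        _ = _ := by ring
    refine (Finset.sum_le_sum h1).trans_lt ?_
    rw [← Finset.mul_sum]
    have h5 := sum_inv_sq X Y hX
    have h6 : 1 / (1024 * (X : ℝ) ^ 2) < L / 8 := by
      rw [hL, div_div, div_lt_div_iff₀ (by positivity) (by positivity)]; nlinarith
    have h7 : 0 < 1 / (1024 * (X : ℝ) ^ 2) := by positivity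
    nlinarith
  obtain ⟨b, b1, b2, ⟨k, k1, k2⟩, b4, b5⟩ := descent
    ((Finset.Ioc X Y).sigma (fun s => Finset.range (3 * s + 1))) (fun e b => Ev e.2 e.1 b) Bad _ j0
    (L / 8) (fun j hj => gap j (by omega)) (by intro u; convert hC u) (n + X) _ hsum
  have hly : 0 < Real.logb 2 y := Real.logb_pos (by norm_num) hy1
  have hy : (2 : ℝ) ^ Real.logb 2 y = y := Real.rpow_logb (by norm_num) (by norm_num) (by linarith)
  have e12 : 1 / (12 * (X : ℝ) ^ 2) = 4 * L := by rw [hL]; field_simp; ring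
  have e24 : 1 / (24 * (X : ℝ) ^ 2) = 2 * L := by rw [hL]; field_simp; ring
  have hup : (2 : ℝ) ^ (Real.logb 2 y + L) ≤ y + 2 * L := by
    rw [Real.rpow_add (by norm_num), hy]
    have := rpow_one_add_le_one_add_mul_self (s := 1) (by norm_num) hL0.le hL1
    rw [show (1 : ℝ) + 1 = 2 by norm_num] at this
    nlinarith
  have hup2 : Real.logb 2 y + L ≤ 1 := by
    have : (2 : ℝ) ^ (Real.logb 2 y + L) ≤ 2 ^ (1 : ℝ) := by rw [Real.rpow_one]; linarith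
    exact (Real.rpow_le_rpow_left_iff (by norm_num)).1 this
  have hk : (k : ℝ) = AA b := by
    obtain ⟨p1, p2⟩ := phi_bd b
    have a1 : (k : ℝ) < (AA b : ℝ) + 1 := by linarith
    have a2 : (AA b : ℝ) < k + 1 := by linarith
    have a3 : k < (AA b : ℤ) + 1 := by exact_mod_cast a1
    have a4 : (AA b : ℤ) < k + 1 := by exact_mod_cast a2
    have : k = AA b := by omega
    rw [this]; simp
  rw [hk] at k1 k2
  refine ⟨b, ?_, ?_, ?_, ?_⟩
  · have h1 : X < 4 ^ (j0 + (n + X)) :=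
      lt_of_le_of_lt (by omega) (Nat.lt_pow_self (show 1 < 4 by norm_num))
    have h2 : X < 3 ^ X := Nat.lt_pow_self (by norm_num)
    calc 3 * X ≤ 3 ^ (X + 1) := by rw [pow_succ]; omega
      _ ≤ 3 ^ b := Nat.pow_le_pow_right (by norm_num) (by omega)
  · rw [xx_eq, ← hy]
    exact Real.rpow_le_rpow_of_exponent_le (by norm_num) k1
  · rw [xx_eq, e24]
    exact (Real.rpow_le_rpow_of_exponent_le (by norm_num) k2).trans hup
  · intro s hs r hr hE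
    by_cases c1 : s ≤ Y
    · exact b4 ⟨s, r⟩ (Finset.mem_sigma.2 ⟨Finset.mem_Ioc.2 ⟨hs, c1⟩, Finset.mem_range.2
        (Nat.lt_succ_of_le (ev_r (by omega) hE).2)⟩) hE
    by_cases c2 : s < 3 ^ (4 ^ (j0 + (n + X) - 2))
    · obtain ⟨j, a1, a2, a3, a4⟩ := level j0 (n + X) s hj0 (by omega) c2
      exact b5 j a1 a2 ⟨s, r, a3, a4, hr, hE⟩
    · refine top (4 ^ (j0 + (n + X) - 2)) b r s ?_ (by omega) hr hE
      have : 4 ^ (j0 + (n + X)) = 16 * 4 ^ (j0 + (n + X) - 2) := by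
        conv_lhs => rw [show j0 + (n + X) = (j0 + (n + X) - 2) + 2 by omega]
        ring
      omega

end Pool.Agent.H.MP_9b3484_nt
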