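import Mathlib

set_option autoImplicit false

namespace Pool.Agent.H.MP_9b3484_nt

open Classical in
/-- potential of a set in a window of length `4^j` starting at `u` -/
noncomputable def g (E : ℕ → Prop) : ℕ → ℕ → ℝ
  | 0, u => if E u then 1 else 0
  | j + 1, u => min (max (max (g E j u) (g E j (u + 4 ^ j)))
        (max (g E j (u + 2 * 4 ^ j)) (g E j (u + 3 * 4 ^ j))))
      ((g E j u + g E j (u + 4 ^ j) + g E j (u + 2 * 4 ^ j) + g E j (u + 3 * 4 ^ j)) / 2)

lemma g_bd (E : ℕ → Prop) (j : ℕ) : ∀ u, 0 ≤ g E j u ∧ g E j u ≤ 1 := by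
  induction j with
  | zero => intro u; unfold g; split_ifs <;> norm_num
  | succ j ih =>
    intro u
    unfold g
    have h0 := ih u
    have h1 := ih (u + 4 ^ j)
    have h2 := ih (u + 2 * 4 ^ j)
    have h3 := ih (u + 3 * 4 ^ j)
    constructor
    · exact le_min (le_max_of_le_left (le_max_of_le_left h0.1)) (by linarith [h0.1, h1.1, h2.1, h3.1])
    · exact min_le_of_left_le (max_le (max_le h0.2 h1.2) (max_le h2.2 h3.2))

lemma g_avg (E : ℕ → Prop) (j u c c' : ℕ) (hc : c < c') (hc' : c' < 4) :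
    g E j (u + c * 4 ^ j) + g E j (u + c' * 4 ^ j) ≤ 2 * g E (j + 1) u := by
  have h0 := (g_bd E j u).1
  have h1 := (g_bd E j (u + 4 ^ j)).1
  have h2 := (g_bd E j (u + 2 * 4 ^ j)).1
  have h3 := (g_bd E j (u + 3 * 4 ^ j)).1
  have key : ∀ a b : ℝ, a ≤ max (max (g E j u) (g E j (u + 4 ^ j)))
        (max (g E j (u + 2 * 4 ^ j)) (g E j (u + 3 * 4 ^ j))) →
      b ≤ max (max (g E j u) (g E j (u + 4 ^ j)))
        (max (g E j (u + 2 * 4 ^ j)) (g E j (u + 3 * 4 ^ j))) →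
      a + b ≤ g E j u + g E j (u + 4 ^ j) + g E j (u + 2 * 4 ^ j) + g E j (u + 3 * 4 ^ j) →
      a + b ≤ 2 * g E (j + 1) u := by
    intro a b ha hb hab
    rw [g]
    rcases min_choice (max (max (g E j u) (g E j (u + 4 ^ j)))
        (max (g E j (u + 2 * 4 ^ j)) (g E j (u + 3 * 4 ^ j))))
      ((g E j u + g E j (u + 4 ^ j) + g E j (u + 2 * 4 ^ j) + g E j (u + 3 * 4 ^ j)) / 2) with h | h
    · rw [h]; linarith
    · rw [h]; linarith
  have hcc : c < 3 := by omega
  interval_cases c' <;> interval_cases c <;> (try simp only [zero_mul, add_zero, one_mul]) <;>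
    apply key <;> first | (simp; done) | linarith

open Classical in
lemma g_count (E : ℕ → Prop) (j : ℕ) : ∀ u,
    (((Finset.Ico u (u + 4 ^ j)).filter E).card : ℝ) ≤ g E j u * 4 ^ j := by
  induction j with
  | zero =>
    intro u
    unfold g
    simp only [pow_zero, Nat.Ico_succ_singleton, mul_one, Finset.filter_singleton]
    split_ifs <;> simp
  | succ j ih =>
    intro u
    have hsub : (Finset.Ico u (u + 4 ^ (j + 1))).filter E ⊆
        (((Finset.Ico u (u + 4 ^ j)).filter E ∪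
        (Finset.Ico (u + 4 ^ j) (u + 4 ^ j + 4 ^ j)).filter E) ∪
        (Finset.Ico (u + 2 * 4 ^ j) (u + 2 * 4 ^ j + 4 ^ j)).filter E) ∪
        (Finset.Ico (u + 3 * 4 ^ j) (u + 3 * 4 ^ j + 4 ^ j)).filter E := by
      intro b hb
      simp only [Finset.mem_filter, Finset.mem_Ico, Finset.mem_union, pow_succ] at hb ⊢
      obtain ⟨⟨h1, h2⟩, h3⟩ := hb
      simp only [h3, and_true]
      omega
    have hc := Finset.card_le_card hsub
    have hc2 := hc.trans ((Finset.card_union_le _ _).trans (Nat.add_le_add_right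
      ((Finset.card_union_le _ _).trans (Nat.add_le_add_right (Finset.card_union_le _ _) _)) _))
    have hc3 : (((Finset.Ico u (u + 4 ^ (j + 1))).filter E).card : ℝ) ≤
        (g E j u + g E j (u + 4 ^ j) + g E j (u + 2 * 4 ^ j) + g E j (u + 3 * 4 ^ j)) * 4 ^ j := by
      have := (Nat.cast_le (α := ℝ)).2 hc2
      push_cast at this
      linarith [ih u, ih (u + 4 ^ j), ih (u + 2 * 4 ^ j), ih (u + 3 * 4 ^ j)]
    refine hc3.trans ?_
    have h0 := (g_bd E j u).1
    have h1 := (g_bd E j (u + 4 ^ j)).1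
    have h2 := (g_bd E j (u + 2 * 4 ^ j)).1
    have h3 := (g_bd E j (u + 3 * 4 ^ j)).1
    have hp : (0 : ℝ) < 4 ^ j := by positivity
    rw [pow_succ, mul_comm ((4 : ℝ) ^ j) 4, ← mul_assoc]
    apply mul_le_mul_of_nonneg_right _ hp.le
    rw [g]
    rcases min_choice (max (max (g E j u) (g E j (u + 4 ^ j)))
        (max (g E j (u + 2 * 4 ^ j)) (g E j (u + 3 * 4 ^ j))))
      ((g E j u + g E j (u + 4 ^ j) + g E j (u + 2 * 4 ^ j) + g E j (u + 3 * 4 ^ j)) / 2) with h | h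
    · rw [h]
      have a0 : g E j u ≤ max (max (g E j u) (g E j (u + 4 ^ j)))
        (max (g E j (u + 2 * 4 ^ j)) (g E j (u + 3 * 4 ^ j))) := by simp
      have a1 : g E j (u + 4 ^ j) ≤ max (max (g E j u) (g E j (u + 4 ^ j)))
        (max (g E j (u + 2 * 4 ^ j)) (g E j (u + 3 * 4 ^ j))) := by simp
      have a2 : g E j (u + 2 * 4 ^ j) ≤ max (max (g E j u) (g E j (u + 4 ^ j)))
        (max (g E j (u + 2 * 4 ^ j)) (g E j (u + 3 * 4 ^ j))) := by simp
      have a3 : g E j (u + 3 * 4 ^ j) ≤ max (max (g E j u) (g E j (u + 4 ^ j)))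
        (max (g E j (u + 2 * 4 ^ j)) (g E j (u + 3 * 4 ^ j))) := by simp
      linarith
    · rw [h]; linarith

lemma g_zero (E : ℕ → Prop) (j : ℕ) : ∀ u, (∀ b, u ≤ b → b < u + 4 ^ j → ¬ E b) → g E j u = 0 := by
  induction j with
  | zero => intro u h; unfold g; rw [if_neg (h u le_rfl (by simp))]
  | succ j ih =>
    intro u h
    have hp : 0 < 4 ^ j := by positivity
    rw [pow_succ] at h
    rw [g, ih u (fun b h1 h2 => h b h1 (by omega)), ih _ (fun b h1 h2 => h b (by omega) (by omega)),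
      ih _ (fun b h1 h2 => h b (by omega) (by omega)), ih _ (fun b h1 h2 => h b (by omega) (by omega))]
    simp

/-- indicator of a point in a window -/
noncomputable def ind (a j v : ℕ) : ℝ := if v ≤ a ∧ a < v + 4 ^ j then 1 else 0

lemma ind_add (a j v : ℕ) : ind a j v + ind a j (v + 4 ^ j) + ind a j (v + 2 * 4 ^ j) +
    ind a j (v + 3 * 4 ^ j) ≤ ind a (j + 1) v := by
  unfold ind
  rw [pow_succ]
  have hp : 0 < 4 ^ j := by positivity
  generalize 4 ^ j = P at *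
  split_ifs <;> first | omega | norm_num

lemma g_span (E : ℕ → Prop) (j' a a' : ℕ) (ha : a' < a + 4 ^ j') (i : ℕ) : ∀ v,
    (∀ b, v ≤ b → b < v + 4 ^ (j' + i) → E b → a ≤ b ∧ b ≤ a') →
    g E (j' + i) v ≤ (ind a (j' + i) v + ind a' (j' + i) v) / 2 ^ i := by
  induction i with
  | zero =>
    intro v h
    simp only [add_zero, pow_zero, div_one] at h ⊢
    by_cases hE : ∃ b, v ≤ b ∧ b < v + 4 ^ j' ∧ E b
    · obtain ⟨b, h1, h2, h3⟩ := hE
      have := h b h1 h2 h3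
      refine (g_bd E j' v).2.trans ?_
      unfold ind
      split_ifs <;> first | omega | norm_num
    · rw [g_zero E j' v (fun b h1 h2 h3 => hE ⟨b, h1, h2, h3⟩)]
      unfold ind
      split_ifs <;> norm_num
  | succ i ih =>
    intro v h
    rw [← add_assoc] at h ⊢
    have hp : 0 < 4 ^ (j' + i) := by positivity
    rw [pow_succ] at h
    have h0 := ih v (fun b h1 h2 => h b h1 (by omega))
    have h1 := ih (v + 4 ^ (j' + i)) (fun b h1 h2 => h b (by omega) (by omega))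
    have h2 := ih (v + 2 * 4 ^ (j' + i)) (fun b h1 h2 => h b (by omega) (by omega))
    have h3 := ih (v + 3 * 4 ^ (j' + i)) (fun b h1 h2 => h b (by omega) (by omega))
    rw [g]
    refine (min_le_right _ _).trans ?_
    have e1 := ind_add a (j' + i) v
    have e2 := ind_add a' (j' + i) v
    have hq : (0 : ℝ) < 2 ^ i := by positivity
    rw [le_div_iff₀ hq] at h0 h1 h2 h3
    rw [le_div_iff₀ (by positivity), pow_succ]
    nlinarith

lemma g_sep (E : ℕ → Prop) (j' k : ℕ)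
    (h : ∀ b b', b < b' → E b → E b' → b' < b + 4 ^ j' ∨ b + 4 ^ (j' + k) ≤ b') (i : ℕ) :
    ∀ u, g E (j' + k + i) u ≤ 2 / 2 ^ k := by
  induction i with
  | zero =>
    intro u
    rw [add_zero]
    by_cases hE : ∃ b, u ≤ b ∧ b < u + 4 ^ (j' + k) ∧ E b
    · classical
      obtain ⟨h1, h2, h3⟩ := Nat.find_spec hE
      have hmin : ∀ b, u ≤ b → b < u + 4 ^ (j' + k) → E b → Nat.find hE ≤ b :=
        fun b a1 a2 a3 => Nat.find_min' hE ⟨a1, a2, a3⟩
      generalize Nat.find hE = a at *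
      have hp : 0 < 4 ^ j' := by positivity
      have := g_span E j' a (a + 4 ^ j' - 1) (by omega) k u (fun b a1 a2 a3 => by
        have m := hmin b a1 a2 a3
        refine ⟨m, ?_⟩
        rcases m.lt_or_eq with m | m
        · rcases h a b m h3 a3 with t | t <;> omega
        · omega)
      refine this.trans ?_
      apply div_le_div_of_nonneg_right _ (by positivity)
      unfold ind
      split_ifs <;> norm_num
    · rw [g_zero E _ u (fun b h1 h2 h3 => hE ⟨b, h1, h2, h3⟩)]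
      positivity
  | succ i ih =>
    intro u
    rw [← add_assoc, g]
    exact min_le_of_left_le (max_le (max_le (ih _) (ih _)) (max_le (ih _) (ih _)))

lemma two_children (Bad : ℕ → Prop) (j : ℕ)
    (h : ∀ b b', b < b' → Bad b → Bad b' → b' ≤ b + 4 ^ j ∨ b + 4 ^ (j + 1) ≤ b') (u : ℕ) :
    ∃ c c', c < c' ∧ c' < 4 ∧ (∀ b, u + c * 4 ^ j ≤ b → b < u + c * 4 ^ j + 4 ^ j → ¬ Bad b) ∧
      (∀ b, u + c' * 4 ^ j ≤ b → b < u + c' * 4 ^ j + 4 ^ j → ¬ Bad b) := by
  by_cases hE : ∃ b, u ≤ b ∧ b < u + 4 ^ (j + 1) ∧ Bad b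
  · classical
    obtain ⟨h1, h2, h3⟩ := Nat.find_spec hE
    have hmin : ∀ b, u ≤ b → b < u + 4 ^ (j + 1) → Bad b → Nat.find hE ≤ b :=
      fun b a1 a2 a3 => Nat.find_min' hE ⟨a1, a2, a3⟩
    generalize Nat.find hE = a at *
    have hall : ∀ b, u ≤ b → b < u + 4 ^ (j + 1) → Bad b → a ≤ b ∧ b ≤ a + 4 ^ j := by
      intro b a1 a2 a3
      have m := hmin b a1 a2 a3
      refine ⟨m, ?_⟩
      rcases m.lt_or_eq with m | m
      · rcases h a b m h3 a3 with t | t <;> omega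
      · omega
    rw [pow_succ] at *
    generalize 4 ^ j = P at *
    by_cases c0 : a < u + P
    · refine ⟨2, 3, by norm_num, by norm_num, fun b a1 a2 a3 => ?_, fun b a1 a2 a3 => ?_⟩ <;>
        (have := hall b (by omega) (by omega) a3; omega)
    by_cases c1 : a < u + 2 * P
    · refine ⟨0, 3, by norm_num, by norm_num, fun b a1 a2 a3 => ?_, fun b a1 a2 a3 => ?_⟩ <;>
        (have := hall b (by omega) (by omega) a3; omega)
    · refine ⟨0, 1, by norm_num, by norm_num, fun b a1 a2 a3 => ?_, fun b a1 a2 a3 => ?_⟩ <;>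
        (have := hall b (by omega) (by omega) a3; omega)
  · refine ⟨0, 1, by norm_num, by norm_num, fun b a1 a2 a3 => hE ⟨b, ?_, ?_, a3⟩,
      fun b a1 a2 a3 => hE ⟨b, ?_, ?_, a3⟩⟩ <;> (try rw [pow_succ]) <;> omega

open Classical in
lemma descent {ι : Type} (F : Finset ι) (E : ι → ℕ → Prop) (Bad : ℕ → ℕ → Prop) (Cand : ℕ → Prop)
    (j0 : ℕ) (μ : ℝ)
    (hB : ∀ j, j0 ≤ j → ∀ b b', b < b' → Bad j b → Bad j b' →
      b' ≤ b + 4 ^ j ∨ b + 4 ^ (j + 1) ≤ b')
    (hC : ∀ u, μ * 4 ^ j0 ≤ (((Finset.Ico u (u + 4 ^ j0)).filter Cand).card : ℝ)) (i : ℕ) :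
    ∀ u, ∑ e ∈ F, g (E e) (j0 + i) u < μ → ∃ b, u ≤ b ∧ b < u + 4 ^ (j0 + i) ∧ Cand b ∧
      (∀ e ∈ F, ¬ E e b) ∧ ∀ j, j0 ≤ j → j < j0 + i → ¬ Bad j b := by
  induction i with
  | zero =>
    intro u h
    rw [add_zero] at h ⊢
    by_contra hcon
    have hsub : (Finset.Ico u (u + 4 ^ j0)).filter Cand ⊆
        F.biUnion (fun e => (Finset.Ico u (u + 4 ^ j0)).filter (E e)) := by
      intro b hb
      simp only [Finset.mem_filter, Finset.mem_Ico, Finset.mem_biUnion] at hb ⊢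
      by_contra hn
      exact hcon ⟨b, hb.1.1, hb.1.2, hb.2, fun e he hE => hn ⟨e, he, hb.1, hE⟩,
        fun j h1 h2 => by omega⟩
    have h1 := (Finset.card_le_card hsub).trans Finset.card_biUnion_le
    have h2 := (Nat.cast_le (α := ℝ)).2 h1
    push_cast at h2
    have h3 : ∑ e ∈ F, (((Finset.Ico u (u + 4 ^ j0)).filter (E e)).card : ℝ) ≤
        (∑ e ∈ F, g (E e) j0 u) * 4 ^ j0 := by
      rw [Finset.sum_mul]
      exact Finset.sum_le_sum fun e _ => g_count (E e) j0 u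
    have hp : (0 : ℝ) < 4 ^ j0 := by positivity
    have h4 := hC u
    nlinarith
  | succ i ih =>
    intro u h
    rw [← add_assoc] at h ⊢
    obtain ⟨c, c', h1, h2, h3, h4⟩ := two_children (Bad (j0 + i)) (j0 + i) (hB _ (by omega)) u
    have hs : ∑ e ∈ F, g (E e) (j0 + i) (u + c * 4 ^ (j0 + i)) +
        ∑ e ∈ F, g (E e) (j0 + i) (u + c' * 4 ^ (j0 + i)) ≤ 2 * ∑ e ∈ F, g (E e) (j0 + i + 1) u := by
      rw [← Finset.sum_add_distrib, Finset.mul_sum]
      exact Finset.sum_le_sum fun e _ => g_avg (E e) _ u c c' h1 h2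
    have fin : ∀ d, d < 4 → (∀ b, u + d * 4 ^ (j0 + i) ≤ b → b < u + d * 4 ^ (j0 + i) + 4 ^ (j0 + i) →
        ¬ Bad (j0 + i) b) → ∑ e ∈ F, g (E e) (j0 + i) (u + d * 4 ^ (j0 + i)) < μ →
        ∃ b, u ≤ b ∧ b < u + 4 ^ (j0 + i + 1) ∧ Cand b ∧
          (∀ e ∈ F, ¬ E e b) ∧ ∀ j, j0 ≤ j → j < j0 + i + 1 → ¬ Bad j b := by
      intro d hd hbad hsum
      obtain ⟨b, b1, b2, b3, b4, b5⟩ := ih _ hsum
      refine ⟨b, by omega, ?_, b3, b4, fun j j1 j2 => ?_⟩
      · rw [pow_succ]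
        have : d * 4 ^ (j0 + i) ≤ 3 * 4 ^ (j0 + i) := Nat.mul_le_mul_right _ (by omega)
        omega
      · rcases (Nat.lt_succ_iff.1 j2).lt_or_eq with t | t
        · exact b5 j j1 t
        · rw [t]; exact hbad b b1 b2
    by_cases hc : ∑ e ∈ F, g (E e) (j0 + i) (u + c * 4 ^ (j0 + i)) < μ
    · exact fin c (by omega) h3 hc
    · exact fin c' h2 h4 (by linarith)

end Pool.Agent.H.MP_9b3484_nt
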